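import Mathlib

/-!
# LB5, improper points modulo `p` (MP_0f260b_nt): definitions over a commutative ring

Coordinates of `P : Fin 12 → R`: `(c, p2, p3, q1, q2, q3, v, r2, r3, s1, s2, s3)`.
`QdR` = the ten quadrics of `PP5.Qd`, `InR` = the sixteen equations of `PP5.InE`,
`ImR` = the binary form `f_V` vanishes.
-/

set_option autoImplicit false

namespace Pool.Agent.PP5LN

variable {R : Type*} [CommRing R]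

/-- the ten quadrics -/
structure QdR (P : Fin 12 → R) : Prop where
  h1 : P 0 * P 4 - P 1 * P 3 + P 6 * P 8 - P 7 ^ 2 = 0
  h2 : P 6 * P 10 - P 7 * P 9 - P 0 * P 2 + P 1 ^ 2 = 0
  h3 : P 1 * P 5 - P 2 * P 4 + P 9 * P 11 - P 10 ^ 2 = 0
  h4 : P 7 * P 11 - P 8 * P 10 - P 3 * P 5 + P 4 ^ 2 = 0
  h5 : P 6 * P 11 - P 2 * P 3 - P 7 * P 10 + P 1 * P 4 = 0
  h6 : P 0 * P 5 + P 8 * P 9 - P 7 * P 10 - P 1 * P 4 = 0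
  h7 : P 6 * P 4 + P 0 * P 10 - P 7 * P 1 - P 3 * P 9 = 0
  h8 : P 6 * P 5 - P 4 * P 9 + P 1 * P 10 - P 7 * P 2 = 0
  h9 : P 0 * P 11 - P 3 * P 10 + P 7 * P 4 - P 1 * P 8 = 0
  h10 : P 7 * P 5 + P 1 * P 11 - P 4 * P 10 - P 8 * P 2 = 0

/-- the binary form `f_V` vanishes -/
structure ImR (P : Fin 12 → R) : Prop where
  i1 : P 6 * P 8 = P 7 ^ 2
  i2 : P 6 * P 11 + P 8 * P 9 = 2 * P 7 * P 10
  i3 : P 9 * P 11 = P 10 ^ 2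

/-- the sixteen equations -/
structure InR (P : Fin 12 → R) (x : Fin 10 → R) : Prop where
  e1 : P 4 * x 9 - P 5 * x 8 - P 8 * x 2 + P 10 * x 3 + P 11 * x 5 = 0
  e2 : -(P 0 * x 7) + P 1 * x 6 + P 7 * x 1 - P 9 * x 0 + P 6 * x 5 = 0
  e3 : P 0 * x 3 + P 3 * x 5 - P 4 * x 0 - P 7 * x 8 + P 8 * x 6 = 0
  e4 : -(P 1 * x 2) + P 2 * x 5 + P 5 * x 1 + P 9 * x 9 - P 10 * x 7 = 0
  e5 : P 4 * x 7 - P 5 * x 6 - P 7 * x 2 + P 9 * x 3 + P 10 * x 5 = 0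
  e6 : -(P 0 * x 9) + P 1 * x 8 + P 7 * x 5 + P 8 * x 1 - P 10 * x 0 = 0
  e7 : P 1 * x 3 + P 4 * x 5 - P 5 * x 0 - P 7 * x 9 + P 8 * x 7 = 0
  e8 : -(P 0 * x 2) + P 1 * x 5 + P 4 * x 1 + P 9 * x 8 - P 10 * x 6 = 0
  e9 : -(P 2 * x 3) - P 4 * x 2 + P 5 * x 4 + P 10 * x 9 - P 11 * x 7 = 0
  e10 : P 0 * x 4 - P 1 * x 0 - P 3 * x 1 + P 7 * x 6 - P 6 * x 8 = 0
  e11 : P 1 * x 7 - P 2 * x 6 + P 9 * x 4 - P 10 * x 1 - P 6 * x 2 = 0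
  e12 : -(P 3 * x 9) + P 4 * x 8 - P 7 * x 3 + P 8 * x 4 - P 11 * x 0 = 0
  e13 : P 1 * x 9 - P 2 * x 8 - P 7 * x 2 + P 10 * x 4 - P 11 * x 1 = 0
  e14 : -(P 3 * x 7) + P 4 * x 6 + P 7 * x 4 - P 10 * x 0 - P 6 * x 3 = 0
  e15 : -(P 1 * x 3) - P 3 * x 2 + P 4 * x 4 + P 10 * x 8 - P 11 * x 6 = 0
  e16 : P 1 * x 4 - P 2 * x 0 - P 4 * x 1 + P 7 * x 7 - P 6 * x 9 = 0

end Pool.Agent.PP5LN
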