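import Pool.Agent.PP5LN.ImC

/-!
# LB5, G0: an improper point of `L_x` modulo `p` forces `S_V(x)` or `S_W(x)` to be isotropic
-/

set_option autoImplicit false

namespace Pool.Agent.PP5LN

variable {F : Type*} [Field F]

/-- `S_V(x)` is isotropic -/
def IsoV (x : Fin 10 → F) : Prop :=
  ∃ a b : F, (a ≠ 0 ∨ b ≠ 0) ∧ x 0 * a ^ 2 - (x 4 + x 5) * a * b + x 2 * b ^ 2 = 0

/-- `S_W(x)` is isotropic -/
def IsoW (x : Fin 10 → F) : Prop :=
  ∃ a b : F, (a ≠ 0 ∨ b ≠ 0) ∧ x 1 * a ^ 2 - (x 4 - x 5) * a * b + x 3 * b ^ 2 = 0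

/-- exchange of the basis of `W` -/
def yW (x : Fin 10 → F) : Fin 10 → F := ![x 0, x 3, x 2, x 1, x 5, x 4, x 8, x 9, -x 6, -x 7]

/-- exchange of the basis of `V` -/
def yV (x : Fin 10 → F) : Fin 10 → F := ![x 2, x 1, x 0, x 3, -x 5, -x 4, x 7, -x 6, x 9, -x 8]

theorem inW {P : Fin 12 → F} {x : Fin 10 → F} (h : InR P x) : InR (pW P) (yW x) where
  e1 := by simp only [pW, yW]; simp; linear_combination h.e11
  e2 := by simp only [pW, yW]; simp; linear_combination h.e12
  e3 := by simp only [pW, yW]; simp; linear_combination -h.e10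
  e4 := by simp only [pW, yW]; simp; linear_combination h.e9
  e5 := by simp only [pW, yW]; simp; linear_combination -h.e13
  e6 := by simp only [pW, yW]; simp; linear_combination -h.e14
  e7 := by simp only [pW, yW]; simp; linear_combination -h.e16
  e8 := by simp only [pW, yW]; simp; linear_combination h.e15
  e9 := by simp only [pW, yW]; simp; linear_combination -h.e4
  e10 := by simp only [pW, yW]; simp; linear_combination h.e3
  e11 := by simp only [pW, yW]; simp; linear_combination h.e1
  e12 := by simp only [pW, yW]; simp; linear_combination h.e2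
  e13 := by simp only [pW, yW]; simp; linear_combination -h.e5
  e14 := by simp only [pW, yW]; simp; linear_combination -h.e6
  e15 := by simp only [pW, yW]; simp; linear_combination -h.e8
  e16 := by simp only [pW, yW]; simp; linear_combination h.e7

theorem inV {P : Fin 12 → F} {x : Fin 10 → F} (h : InR P x) : InR (pV P) (yV x) where
  e1 := by simp only [pV, yV]; simp; linear_combination h.e12
  e2 := by simp only [pV, yV]; simp; linear_combination -h.e11
  e3 := by simp only [pV, yV]; simp; linear_combination -h.e9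
  e4 := by simp only [pV, yV]; simp; linear_combination -h.e10
  e5 := by simp only [pV, yV]; simp; linear_combination h.e14
  e6 := by simp only [pV, yV]; simp; linear_combination -h.e13
  e7 := by simp only [pV, yV]; simp; linear_combination h.e15
  e8 := by simp only [pV, yV]; simp; linear_combination h.e16
  e9 := by simp only [pV, yV]; simp; linear_combination -h.e3
  e10 := by simp only [pV, yV]; simp; linear_combination -h.e4
  e11 := by simp only [pV, yV]; simp; linear_combination h.e2
  e12 := by simp only [pV, yV]; simp; linear_combination -h.e1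
  e13 := by simp only [pV, yV]; simp; linear_combination h.e6
  e14 := by simp only [pV, yV]; simp; linear_combination -h.e5
  e15 := by simp only [pV, yV]; simp; linear_combination h.e7
  e16 := by simp only [pV, yV]; simp; linear_combination h.e8

theorem isoW {x : Fin 10 → F} (h : IsoV (yW x) ∨ IsoW (yW x)) : IsoV x ∨ IsoW x := by
  rcases h with ⟨a, b, hab, h⟩ | ⟨a, b, hab, h⟩
  · left
    refine ⟨a, b, hab, ?_⟩
    simp [yW] at h
    linear_combination h
  · right
    refine ⟨b, -a, by rcases hab with h | h <;> simp [h], ?_⟩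
    simp [yW] at h
    linear_combination h

theorem isoV {x : Fin 10 → F} (h : IsoV (yV x) ∨ IsoW (yV x)) : IsoV x ∨ IsoW x := by
  rcases h with ⟨a, b, hab, h⟩ | ⟨a, b, hab, h⟩
  · left
    refine ⟨b, -a, by rcases hab with h | h <;> simp [h], ?_⟩
    simp [yV] at h
    linear_combination h
  · right
    refine ⟨a, b, hab, ?_⟩
    simp [yV] at h
    linear_combination h

/-- the case `v ≠ 0` -/
theorem iso6 {P : Fin 12 → F} {x : Fin 10 → F} (hq : QdR P) (hi : ImR P) (h : InR P x)
    (h6 : P 6 ≠ 0) : IsoV x ∨ IsoW x := by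
  have hs2 := s2 hi
  have hc2 := c2 hq hi
  have hA : P 3 * P 6 = P 7 * P 0 → IsoV x ∨ IsoW x := by
    intro hA
    right
    have hz : P 4 * P 6 - P 1 * P 7 = 0 := by
      apply (mul_eq_zero.1 (?_ : P 6 * (P 4 * P 6 - P 1 * P 7) = 0)).resolve_left h6
      linear_combination P 6 * hq.h7 + P 9 * hA - P 0 * hs2
    refine ⟨P 7, P 6, Or.inr h6, ?_⟩
    linear_combination (-(P 6)) * h.e14 + P 7 * h.e2 - x 7 * hA + x 6 * hz - x 0 * hs2
  rcases fac hq hi h6 with hA' | hB
  · exact hA hA'
  · by_cases h0 : P 0 = 0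
    · by_cases h3 : P 3 = 0
      · exact hA (by rw [h3, h0]; ring)
      · have z1 : P 1 = 0 := by
          rw [h0, zero_mul] at hc2
          exact pow_eq_zero_iff (two_ne_zero) |>.1 hc2.symm
        have z2 : P 2 = 0 := by
          have : P 2 * P 3 = 0 := by
            linear_combination s23 hi h6 - hq.h5 + P 4 * z1
          exact (mul_eq_zero.1 this).resolve_right h3
        left
        refine ⟨P 9, P 6, Or.inr h6, ?_⟩
        linear_combination (-(P 6)) * h.e11 - P 9 * h.e2 + x 7 * hB + x 6 * P 9 * z1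
          - x 6 * P 6 * z2 - x 1 * hs2
    · have hz : P 1 * P 9 - P 6 * P 2 = 0 := by
        apply (mul_eq_zero.1 (?_ : P 0 * (P 1 * P 9 - P 6 * P 2) = 0)).resolve_left h0
        linear_combination (-(P 1)) * hB - P 6 * hc2
      left
      refine ⟨P 9, P 6, Or.inr h6, ?_⟩
      linear_combination (-(P 6)) * h.e11 - P 9 * h.e2 + x 7 * hB + x 6 * hz - x 1 * hs2

/-- the case `R = 0`, `c ≠ 0` -/
theorem iso0 {P : Fin 12 → F} {x : Fin 10 → F} (hq : QdR P) (h : InR P x)
    (h6 : P 6 = 0) (h7 : P 7 = 0) (h9 : P 9 = 0) (h10 : P 10 = 0)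
    (h0 : P 0 ≠ 0) : IsoV x ∨ IsoW x := by
  left
  refine ⟨P 1, P 0, Or.inr h0, ?_⟩
  have a1 := h.e8
  have a2 := h.e10
  have a3 := hq.h1
  rw [h9, h10] at a1
  rw [h6, h7] at a2 a3
  linear_combination (-(P 0)) * a1 - P 1 * a2 + x 1 * a3

/-- an improper point forces isotropy -/
theorem iso {P : Fin 12 → F} {x : Fin 10 → F} (hP : P ≠ 0) (hq : QdR P) (hi : ImR P)
    (h : InR P x) : IsoV x ∨ IsoW x := by
  by_cases h6 : P 6 = 0
  swap
  · exact iso6 hq hi h h6
  by_cases h8 : P 8 = 0
  swap
  · exact isoW (iso6 (qW hq) (iW hi) (inW h) (by simpa [pW] using h8))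
  by_cases h9 : P 9 = 0
  swap
  · exact isoV (iso6 (qV hq) (iV hi) (inV h) (by simpa [pV] using h9))
  by_cases h11 : P 11 = 0
  swap
  · exact isoV (isoW (iso6 (qW (qV hq)) (iW (iV hi)) (inW (inV h)) (by simpa [pW, pV] using h11)))
  have h7 : P 7 = 0 := by
    have := hi.i1
    rw [h6, zero_mul] at this
    exact pow_eq_zero_iff (two_ne_zero) |>.1 this.symm
  have h10 : P 10 = 0 := by
    have := hi.i3
    rw [h9, zero_mul] at this
    exact pow_eq_zero_iff (two_ne_zero) |>.1 this.symm
  by_cases h0 : P 0 = 0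
  swap
  · exact iso0 hq h h6 h7 h9 h10 h0
  by_cases h2 : P 2 = 0
  swap
  · exact isoV (iso0 (qV hq) (inV h) (by simpa [pV] using h9) (by simpa [pV] using h10)
      (by simpa [pV] using h6) (by simpa [pV] using h7) (by simpa [pV] using h2))
  by_cases h3 : P 3 = 0
  swap
  · exact isoW (iso0 (qW hq) (inW h) (by simpa [pW] using h8) (by simpa [pW] using h7)
      (by simpa [pW] using h11) (by simpa [pW] using h10) (by simpa [pW] using h3))
  by_cases h5 : P 5 = 0
  swap
  · exact isoV (isoW (iso0 (qW (qV hq)) (inW (inV h)) (by simpa [pW, pV] using h11)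
      (by simpa [pW, pV] using h10) (by simpa [pW, pV] using h8) (by simpa [pW, pV] using h7)
      (by simpa [pW, pV] using h5)))
  exfalso
  apply hP
  have h1 : P 1 = 0 := by
    have := c2 hq hi
    rw [h0, zero_mul] at this
    exact pow_eq_zero_iff (two_ne_zero) |>.1 this.symm
  have h4 : P 4 = 0 := by
    have := hq.h4
    rw [h7, h8, h3] at this
    have h4' : P 4 ^ 2 = 0 := by linear_combination this
    exact pow_eq_zero_iff (two_ne_zero) |>.1 h4'
  funext j
  fin_cases j <;> assumption

/-- for `2 ≠ 0`: the discriminant is a square -/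
theorem IsoV.sq {x : Fin 10 → F} (h : IsoV x) :
    IsSquare ((x 4 + x 5) ^ 2 - 4 * x 0 * x 2) := by
  obtain ⟨a, b, hab, h⟩ := h
  by_cases hb : b = 0
  · have ha : a ≠ 0 := by
      rcases hab with h' | h'
      · exact h'
      · exact absurd hb h'
    have h0 : x 0 = 0 := by
      rw [hb] at h
      have : x 0 * a ^ 2 = 0 := by linear_combination h
      exact (mul_eq_zero.1 this).resolve_right (pow_ne_zero 2 ha)
    exact ⟨x 4 + x 5, by rw [h0]; ring⟩
  · refine ⟨(2 * x 0 * a - (x 4 + x 5) * b) / b, ?_⟩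
    field_simp
    linear_combination (-4 * x 0) * h

theorem IsoW.sq {x : Fin 10 → F} (h : IsoW x) :
    IsSquare ((x 4 - x 5) ^ 2 - 4 * x 1 * x 3) := by
  obtain ⟨a, b, hab, h⟩ := h
  by_cases hb : b = 0
  · have ha : a ≠ 0 := by
      rcases hab with h' | h'
      · exact h'
      · exact absurd hb h'
    have h0 : x 1 = 0 := by
      rw [hb] at h
      have : x 1 * a ^ 2 = 0 := by linear_combination h
      exact (mul_eq_zero.1 this).resolve_right (pow_ne_zero 2 ha)
    exact ⟨x 4 - x 5, by rw [h0]; ring⟩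
  · refine ⟨(2 * x 1 * a - (x 4 - x 5) * b) / b, ?_⟩
    field_simp
    linear_combination (-4 * x 1) * h

end Pool.Agent.PP5LN
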