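import Pool.Agent.PP5.LDefs

/-!
# LB5, 4(b): the residue class `x0` modulo `8 ∏ p` (MP_0f260b_nt)

`c = (1, 1, m, m, 0, s, e, 0, 0, 0)`: `FF c = 0`, `dV = dW = s² - 4m`, `D = (s² - 4m)² + 4 e² m²`.
-/

set_option autoImplicit false

namespace Pool.Agent.PP5LN

open Pool.Agent.PP5L

/-- the point -/
def x0 (m s e : ℤ) : Fin 10 → ℤ := ![1, 1, m, m, 0, s, e, 0, 0, 0]

theorem x0_FF (m s e : ℤ) : FF (x0 m s e) = 0 := by
  simp [FF, x0]

theorem x0_dV (m s e : ℤ) :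
    (x0 m s e 4 + x0 m s e 5) ^ 2 - 4 * x0 m s e 0 * x0 m s e 2 = s ^ 2 - 4 * m := by
  simp [x0]

theorem x0_dW (m s e : ℤ) :
    (x0 m s e 4 - x0 m s e 5) ^ 2 - 4 * x0 m s e 1 * x0 m s e 3 = s ^ 2 - 4 * m := by
  simp [x0]

theorem x0_det (m s e : ℤ) :
    (SS (x0 m s e)).det = (s ^ 2 - 4 * m) ^ 2 + 4 * e ^ 2 * m ^ 2 := by
  simp [SS, x0, Matrix.det_succ_row_zero, Fin.sum_univ_succ, Fin.succAbove]
  ring

/-- for odd `p` some `4 + e²` is not a square -/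
theorem exists_e (p : ℕ) [Fact p.Prime] (hp : p ≠ 2) : ∃ e : ZMod p, ¬ IsSquare (4 + e ^ 2) := by
  by_contra h
  push Not at h
  have hall : ∀ n : ℕ, IsSquare (4 * (n : ZMod p)) := by
    intro n
    induction n with
    | zero => simp
    | succ n ih =>
      obtain ⟨r, hr⟩ := ih
      have h1 := h r
      have : (4 : ZMod p) * ((n + 1 : ℕ) : ZMod p) = 4 + r ^ 2 := by
        push_cast
        rw [mul_add, hr]; ring
      rw [this]; exact h1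
  have hchar : ringChar (ZMod p) ≠ 2 := by
    rw [ZMod.ringChar_zmod_n]; exact hp
  obtain ⟨u, hu⟩ := FiniteField.exists_nonsquare (F := ZMod p) hchar
  have h4 : (4 : ZMod p) ≠ 0 := by
    intro h4
    have : ((4 : ℕ) : ZMod p) = 0 := by exact_mod_cast h4
    rw [ZMod.natCast_eq_zero_iff] at this
    have h2 : p ∣ 2 ^ 2 := by norm_num; exact this
    have := (Nat.prime_dvd_prime_iff_eq Fact.out Nat.prime_two).1 (Nat.Prime.dvd_of_dvd_pow Fact.out h2)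
    exact hp this
  apply hu
  have h1 := hall (u / 4).val
  rw [ZMod.natCast_zmod_val, mul_div_cancel₀ _ h4] at h1
  exact h1

theorem lb4b (w : ℕ) : ∃ c : Fin 10 → ℤ, FF c = 0 ∧ c 0 = 1 ∧ c 1 = 1 ∧
    ((c 4 + c 5) ^ 2 - 4 * c 0 * c 2) % 8 = 5 ∧ ((c 4 - c 5) ^ 2 - 4 * c 1 * c 3) % 8 = 5 ∧
    (SS c).det % 8 = 5 ∧
    ∀ p : ℕ, p.Prime → p ≠ 2 → p ≤ w →
      ¬ IsSquare (((c 4 + c 5) ^ 2 - 4 * c 0 * c 2 : ℤ) : ZMod p) ∧
      ¬ IsSquare (((c 4 - c 5) ^ 2 - 4 * c 1 * c 3 : ℤ) : ZMod p) ∧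
      ¬ IsSquare (((SS c).det : ℤ) : ZMod p) := by
  classical
  -- local data
  have hloc : ∀ p : ℕ, ∃ m e : ℕ, p.Prime → p ≠ 2 →
      ¬ IsSquare (-(m : ZMod p)) ∧ ¬ IsSquare (4 + (e : ZMod p) ^ 2) := by
    intro p
    by_cases hp : p.Prime ∧ p ≠ 2
    · haveI : Fact p.Prime := ⟨hp.1⟩
      have hchar : ringChar (ZMod p) ≠ 2 := by
        rw [ZMod.ringChar_zmod_n]; exact hp.2
      obtain ⟨u, hu⟩ := FiniteField.exists_nonsquare (F := ZMod p) hchar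
      obtain ⟨e, he⟩ := exists_e p hp.2
      refine ⟨(-u).val, e.val, fun _ _ => ⟨?_, ?_⟩⟩
      · rw [ZMod.natCast_zmod_val, neg_neg]; exact hu
      · rw [ZMod.natCast_zmod_val]; exact he
    · exact ⟨0, 0, fun h1 h2 => absurd ⟨h1, h2⟩ hp⟩
  choose fm fe hf using hloc
  let t : Finset ℕ := (Finset.range (w + 3)).filter Nat.Prime
  have ht2 : 2 ∈ t := by
    simp only [t, Finset.mem_filter, Finset.mem_range]
    exact ⟨by omega, Nat.prime_two⟩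
  have hs : ∀ i ∈ t, (id i : ℕ) ≠ 0 := by
    intro i hi
    simp only [t, Finset.mem_filter, Finset.mem_range] at hi
    exact hi.2.ne_zero
  have hpp : Set.Pairwise (t : Set ℕ) (Function.onFun Nat.Coprime (id : ℕ → ℕ)) := by
    intro i hi j hj hij
    simp only [t, Finset.coe_filter, Finset.mem_range, Set.mem_setOf_eq] at hi hj
    exact (Nat.coprime_primes hi.2 hj.2).2 hij
  obtain ⟨m, hm⟩ := Nat.chineseRemainderOfFinset (fun p => if p = 2 then 1 else fm p) id t hs hpp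
  obtain ⟨s, hs'⟩ := Nat.chineseRemainderOfFinset (fun p => if p = 2 then 1 else 0) id t hs hpp
  obtain ⟨e, he⟩ := Nat.chineseRemainderOfFinset (fun p => if p = 2 then 1 else fe p) id t hs hpp
  have hm2 : m % 2 = 1 := by simpa [Nat.ModEq] using hm 2 ht2
  have hs2 : s % 2 = 1 := by simpa [Nat.ModEq] using hs' 2 ht2
  have he2 : e % 2 = 1 := by simpa [Nat.ModEq] using he 2 ht2
  obtain ⟨m', rfl⟩ : ∃ m' : ℕ, m = 2 * m' + 1 := ⟨m / 2, by omega⟩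
  obtain ⟨s', rfl⟩ : ∃ s' : ℕ, s = 2 * s' + 1 := ⟨s / 2, by omega⟩
  obtain ⟨e', rfl⟩ : ∃ e' : ℕ, e = 2 * e' + 1 := ⟨e / 2, by omega⟩
  have hss : ∃ k : ℤ, (((2 * s' + 1 : ℕ) : ℤ)) ^ 2 = 8 * k + 1 := by
    obtain ⟨k, hk⟩ : ∃ k : ℤ, (s' : ℤ) * (s' + 1) = 2 * k := by
      obtain ⟨k, hk⟩ := Int.even_mul_succ_self (s' : ℤ)
      exact ⟨k, by rw [hk]; ring⟩
    exact ⟨k, by push_cast; linear_combination 4 * hk⟩
  have hdv : ∃ k : ℤ, (((2 * s' + 1 : ℕ) : ℤ)) ^ 2 - 4 * ((2 * m' + 1 : ℕ) : ℤ) = 8 * k + 5 := by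
    obtain ⟨k, hk⟩ := hss
    exact ⟨k - m' - 1, by rw [hk]; push_cast; ring⟩
  refine ⟨x0 ((2 * m' + 1 : ℕ) : ℤ) ((2 * s' + 1 : ℕ) : ℤ) ((2 * e' + 1 : ℕ) : ℤ),
    x0_FF _ _ _, by simp [x0], by simp [x0], ?_, ?_, ?_, ?_⟩
  · rw [x0_dV]; obtain ⟨k, hk⟩ := hdv; rw [hk]; omega
  · rw [x0_dW]; obtain ⟨k, hk⟩ := hdv; rw [hk]; omega
  · rw [x0_det]
    obtain ⟨k, hk⟩ := hdv
    rw [hk]
    have : (8 * k + 5) ^ 2 + 4 * (((2 * e' + 1 : ℕ) : ℤ)) ^ 2 * (((2 * m' + 1 : ℕ) : ℤ)) ^ 2 =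
        8 * (8 * k ^ 2 + 10 * k + 3 +
          (8 * (e' : ℤ) ^ 2 * m' ^ 2 + 8 * (e' : ℤ) ^ 2 * m' + 2 * (e' : ℤ) ^ 2 + 8 * e' * (m' : ℤ) ^ 2
            + 8 * e' * m' + 2 * e' + 2 * (m' : ℤ) ^ 2 + 2 * m')) + 5 := by
      push_cast; ring
    rw [this]; omega
  · intro p hp hp2 hpw
    haveI : Fact p.Prime := ⟨hp⟩
    have hpt : p ∈ t := by
      simp only [t, Finset.mem_filter, Finset.mem_range]
      exact ⟨by omega, hp⟩
    have h1 : ((2 * m' + 1 : ℕ) : ZMod p) = (fm p : ZMod p) := by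
      have := hm p hpt
      simp only [hp2, if_false, id] at this
      exact (ZMod.natCast_eq_natCast_iff _ _ _).2 this
    have h2 : ((2 * s' + 1 : ℕ) : ZMod p) = 0 := by
      have := hs' p hpt
      simp only [hp2, if_false, id] at this
      have h3 := (ZMod.natCast_eq_natCast_iff _ _ _).2 this
      simpa using h3
    have h3 : ((2 * e' + 1 : ℕ) : ZMod p) = (fe p : ZMod p) := by
      have := he p hpt
      simp only [hp2, if_false, id] at this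
      exact (ZMod.natCast_eq_natCast_iff _ _ _).2 this
    obtain ⟨g1, g2⟩ := hf p hp hp2
    have h20 : (2 : ZMod p) ≠ 0 := by
      intro h
      have : ((2 : ℕ) : ZMod p) = 0 := by exact_mod_cast h
      rw [ZMod.natCast_eq_zero_iff] at this
      exact hp2 ((Nat.prime_dvd_prime_iff_eq hp Nat.prime_two).1 this)
    have hd : ¬ IsSquare (((((2 * s' + 1 : ℕ) : ℤ)) ^ 2 - 4 * ((2 * m' + 1 : ℕ) : ℤ) : ℤ) : ZMod p) := by
      intro ⟨r, hr⟩
      apply g1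
      refine ⟨r / 2, ?_⟩
      have e1 : (((((2 * s' + 1 : ℕ) : ℤ)) ^ 2 - 4 * ((2 * m' + 1 : ℕ) : ℤ) : ℤ) : ZMod p)
          = -(4 * (fm p : ZMod p)) := by
        rw [← h1, Int.cast_sub, Int.cast_pow, Int.cast_mul, Int.cast_natCast, Int.cast_natCast, h2]
        push_cast; ring
      rw [e1] at hr
      field_simp
      linear_combination hr
    refine ⟨?_, ?_, ?_⟩
    · rw [x0_dV]; exact hd
    · rw [x0_dW]; exact hd
    · rw [x0_det]
      intro ⟨r, hr⟩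
      have hm0 : (fm p : ZMod p) ≠ 0 := by
        intro h0; apply g1; rw [h0]; simp
      apply g2
      refine ⟨r / (2 * (fm p : ZMod p)), ?_⟩
      have e1 : (((((((2 * s' + 1 : ℕ) : ℤ)) ^ 2 - 4 * ((2 * m' + 1 : ℕ) : ℤ)) ^ 2
          + 4 * (((2 * e' + 1 : ℕ) : ℤ)) ^ 2 * (((2 * m' + 1 : ℕ) : ℤ)) ^ 2 : ℤ)) : ZMod p)
          = 4 * (fm p : ZMod p) ^ 2 * (4 + (fe p : ZMod p) ^ 2) := by
        rw [← h1, ← h3]
        have h2' : (2 * (s' : ZMod p) + 1) = 0 := by simpa using h2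
        push_cast
        linear_combination ((2 * (s' : ZMod p) + 1) ^ 3 - 8 * (2 * (s' : ZMod p) + 1) * (2 * m' + 1)) * h2'
      rw [e1] at hr
      field_simp
      linear_combination hr

end Pool.Agent.PP5LN
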