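import Pool.Agent.PP5LN.InC

/-!
# LB5: there are at most `18 q ^ 5` improper points over a field with `q` elements
-/

set_option autoImplicit false

namespace Pool.Agent.PP5LN

open Finset

variable {F : Type*} [Field F]

/-- exchange of the basis of `W` -/
def pW (P : Fin 12 → F) : Fin 12 → F :=
  ![P 3, P 4, P 5, -P 0, -P 1, -P 2, P 8, -P 7, P 6, P 11, -P 10, P 9]

/-- exchange of the basis of `V` -/
def pV (P : Fin 12 → F) : Fin 12 → F :=
  ![P 2, -P 1, P 0, P 5, -P 4, P 3, P 9, P 10, P 11, -P 6, -P 7, -P 8]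

theorem qW {P : Fin 12 → F} (h : QdR P) : QdR (pW P) where
  h1 := by simp only [pW]; simp; linear_combination h.h1
  h2 := by simp only [pW]; simp; linear_combination h.h4
  h3 := by simp only [pW]; simp; linear_combination h.h3
  h4 := by simp only [pW]; simp; linear_combination h.h2
  h5 := by simp only [pW]; simp; linear_combination h.h6
  h6 := by simp only [pW]; simp; linear_combination h.h5
  h7 := by simp only [pW]; simp; linear_combination h.h9
  h8 := by simp only [pW]; simp; linear_combination h.h10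
  h9 := by simp only [pW]; simp; linear_combination -h.h7
  h10 := by simp only [pW]; simp; linear_combination -h.h8

theorem iW {P : Fin 12 → F} (h : ImR P) : ImR (pW P) where
  i1 := by simp only [pW]; simp; linear_combination h.i1
  i2 := by simp only [pW]; simp; linear_combination h.i2
  i3 := by simp only [pW]; simp; linear_combination h.i3

theorem qV {P : Fin 12 → F} (h : QdR P) : QdR (pV P) where
  h1 := by simp only [pV]; simp; linear_combination h.h3
  h2 := by simp only [pV]; simp; linear_combination h.h2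
  h3 := by simp only [pV]; simp; linear_combination h.h1
  h4 := by simp only [pV]; simp; linear_combination h.h4
  h5 := by simp only [pV]; simp; linear_combination -h.h6
  h6 := by simp only [pV]; simp; linear_combination -h.h5
  h7 := by simp only [pV]; simp; linear_combination h.h8
  h8 := by simp only [pV]; simp; linear_combination -h.h7
  h9 := by simp only [pV]; simp; linear_combination h.h10
  h10 := by simp only [pV]; simp; linear_combination -h.h9

theorem iV {P : Fin 12 → F} (h : ImR P) : ImR (pV P) where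
  i1 := by simp only [pV]; simp; linear_combination h.i3
  i2 := by simp only [pV]; simp; linear_combination -h.i2
  i3 := by simp only [pV]; simp; linear_combination h.i1

theorem injW : Function.Injective (pW : (Fin 12 → F) → (Fin 12 → F)) := by
  intro P P' h
  funext j
  have h0 := congrFun h 0; have h1 := congrFun h 1; have h2 := congrFun h 2
  have h3 := congrFun h 3; have h4 := congrFun h 4; have h5 := congrFun h 5
  have h6 := congrFun h 6; have h7 := congrFun h 7; have h8 := congrFun h 8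
  have h9 := congrFun h 9; have h10 := congrFun h 10; have h11 := congrFun h 11
  simp [pW] at h0 h1 h2 h3 h4 h5 h6 h7 h8 h9 h10 h11
  fin_cases j <;> simp_all

theorem injV : Function.Injective (pV : (Fin 12 → F) → (Fin 12 → F)) := by
  intro P P' h
  funext j
  have h0 := congrFun h 0; have h1 := congrFun h 1; have h2 := congrFun h 2
  have h3 := congrFun h 3; have h4 := congrFun h 4; have h5 := congrFun h 5
  have h6 := congrFun h 6; have h7 := congrFun h 7; have h8 := congrFun h 8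
  have h9 := congrFun h 9; have h10 := congrFun h 10; have h11 := congrFun h 11
  simp [pV] at h0 h1 h2 h3 h4 h5 h6 h7 h8 h9 h10 h11
  fin_cases j <;> simp_all

theorem s2 {P : Fin 12 → F} (h : ImR P) : P 6 * P 10 = P 7 * P 9 := by
  have : (P 6 * P 10 - P 7 * P 9) ^ 2 = 0 := by
    linear_combination (-(P 6) ^ 2) * h.i3 + P 6 * P 9 * h.i2 - (P 9) ^ 2 * h.i1
  have := pow_eq_zero_iff (two_ne_zero) |>.1 this
  linear_combination this

theorem s3 {P : Fin 12 → F} (h : ImR P) : P 6 ^ 2 * P 11 = P 7 ^ 2 * P 9 := by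
  linear_combination P 6 * h.i2 + 2 * P 7 * s2 h - P 9 * h.i1

theorem s23 {P : Fin 12 → F} (h : ImR P) (h6 : P 6 ≠ 0) : P 6 * P 11 = P 7 * P 10 := by
  apply mul_left_cancel₀ h6
  linear_combination s3 h - P 7 * s2 h

theorem c2 {P : Fin 12 → F} (h : QdR P) (hi : ImR P) : P 0 * P 2 = P 1 ^ 2 := by
  linear_combination s2 hi - h.h2

theorem fac {P : Fin 12 → F} (h : QdR P) (hi : ImR P) (h6 : P 6 ≠ 0) :
    P 3 * P 6 = P 7 * P 0 ∨ P 1 * P 6 = P 9 * P 0 := by
  have h1 : (P 3 * P 6 - P 7 * P 0) * (P 1 * P 6 - P 9 * P 0) = 0 := by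
    linear_combination (P 6 ^ 2) * (-h.h1 + hi.i1) + P 6 * P 0 * h.h7 - P 0 ^ 2 * s2 hi
  rcases mul_eq_zero.1 h1 with h2 | h2
  · left; linear_combination h2
  · right; linear_combination h2

/-- seven coordinates determine the point -/
theorem det6 {P P' : Fin 12 → F} (hq : QdR P) (hi : ImR P) (hq' : QdR P') (hi' : ImR P')
    (h6 : P 6 ≠ 0) (e0 : P 0 = P' 0) (e1 : P 1 = P' 1) (e2 : P 2 = P' 2) (e3 : P 3 = P' 3)
    (e6 : P 6 = P' 6) (e7 : P 7 = P' 7) (e9 : P 9 = P' 9) : P = P' := by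
  have e8 : P 8 = P' 8 := by
    apply mul_left_cancel₀ h6
    rw [hi.i1, e6, hi'.i1, e7]
  have e10 : P 10 = P' 10 := by
    apply mul_left_cancel₀ h6
    rw [s2 hi, e6, s2 hi', e7, e9]
  have e11 : P 11 = P' 11 := by
    apply mul_left_cancel₀ h6
    rw [s23 hi h6, e6, s23 hi' (e6 ▸ h6), e7, e10]
  have e4 : P 4 = P' 4 := by
    apply mul_left_cancel₀ h6
    have a := hq.h7
    have b := hq'.h7
    rw [← e0, ← e1, ← e3, ← e6, ← e7, ← e9, ← e10] at b
    linear_combination a - b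
  have e5 : P 5 = P' 5 := by
    apply mul_left_cancel₀ h6
    have a := hq.h8
    have b := hq'.h8
    rw [← e1, ← e2, ← e4, ← e6, ← e7, ← e9, ← e10] at b
    linear_combination a - b
  funext j
  fin_cases j <;> assumption

variable [Fintype F]

open Classical in
/-- the improper points -/
noncomputable def Sim (F : Type*) [Field F] [Fintype F] : Finset (Fin 12 → F) :=
  univ.filter (fun P => QdR P ∧ ImR P)

theorem mem_Sim {P : Fin 12 → F} : P ∈ Sim F ↔ QdR P ∧ ImR P := by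
  simp [Sim]

open Classical in
theorem inj5 {S : Finset (Fin 12 → F)} (f : (Fin 12 → F) → (Fin 5 → F))
    (hf : ∀ P ∈ S, ∀ P' ∈ S, f P = f P' → P = P') : S.card ≤ Fintype.card F ^ 5 := by
  calc S.card ≤ (univ : Finset (Fin 5 → F)).card :=
        Finset.card_le_card_of_injOn f (fun _ _ => mem_univ _)
          (fun P hP P' hP' h => hf P hP P' hP' h)
    _ = Fintype.card F ^ 5 := by simp

open Classical in
theorem card6 : ((Sim F).filter (fun P => P 6 ≠ 0)).card ≤ 4 * Fintype.card F ^ 5 := by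
  have hcov : (Sim F).filter (fun P => P 6 ≠ 0) ⊆
      (((Sim F).filter (fun P => P 6 ≠ 0 ∧ P 3 * P 6 = P 7 * P 0 ∧ P 0 ≠ 0)) ∪
      ((Sim F).filter (fun P => P 6 ≠ 0 ∧ P 3 * P 6 = P 7 * P 0 ∧ P 0 = 0))) ∪
      (((Sim F).filter (fun P => P 6 ≠ 0 ∧ P 1 * P 6 = P 9 * P 0 ∧ P 0 ≠ 0)) ∪
      ((Sim F).filter (fun P => P 6 ≠ 0 ∧ P 1 * P 6 = P 9 * P 0 ∧ P 0 = 0 ∧ P 3 ≠ 0))) := by
    intro P hP
    simp only [mem_filter, mem_union] at hP ⊢
    obtain ⟨hS, h6⟩ := hP
    obtain ⟨hq, hi⟩ := mem_Sim.1 hS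
    rcases fac hq hi h6 with h | h
    · by_cases h0 : P 0 = 0
      · exact Or.inl (Or.inr ⟨hS, h6, h, h0⟩)
      · exact Or.inl (Or.inl ⟨hS, h6, h, h0⟩)
    · by_cases h0 : P 0 = 0
      · by_cases h3 : P 3 = 0
        · exact Or.inl (Or.inr ⟨hS, h6, by rw [h3, h0]; ring, h0⟩)
        · exact Or.inr (Or.inr ⟨hS, h6, h, h0, h3⟩)
      · exact Or.inr (Or.inl ⟨hS, h6, h, h0⟩)
  have hA1 : ((Sim F).filter (fun P => P 6 ≠ 0 ∧ P 3 * P 6 = P 7 * P 0 ∧ P 0 ≠ 0)).card ≤
      Fintype.card F ^ 5 := by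
    refine inj5 (fun P => ![P 6, P 7, P 9, P 0, P 1]) ?_
    intro P hP P' hP' h
    simp only [mem_filter] at hP hP'
    obtain ⟨hS, h6, hA, h0⟩ := hP
    obtain ⟨hS', h6', hA', h0'⟩ := hP'
    obtain ⟨hq, hi⟩ := mem_Sim.1 hS
    obtain ⟨hq', hi'⟩ := mem_Sim.1 hS'
    have e6 : P 6 = P' 6 := congrFun h 0
    have e7 : P 7 = P' 7 := congrFun h 1
    have e9 : P 9 = P' 9 := congrFun h 2
    have e0 : P 0 = P' 0 := congrFun h 3
    have e1 : P 1 = P' 1 := congrFun h 4
    have e3 : P 3 = P' 3 := by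
      apply mul_right_cancel₀ h6
      rw [hA, e6, hA', e7, e0]
    have e2 : P 2 = P' 2 := by
      apply mul_left_cancel₀ h0
      rw [c2 hq hi, e0, c2 hq' hi', e1]
    exact det6 hq hi hq' hi' h6 e0 e1 e2 e3 e6 e7 e9
  have hA2 : ((Sim F).filter (fun P => P 6 ≠ 0 ∧ P 3 * P 6 = P 7 * P 0 ∧ P 0 = 0)).card ≤
      Fintype.card F ^ 5 := by
    refine inj5 (fun P => ![P 6, P 7, P 9, P 2, P 2]) ?_
    intro P hP P' hP' h
    simp only [mem_filter] at hP hP'
    obtain ⟨hS, h6, hA, h0⟩ := hP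
    obtain ⟨hS', h6', hA', h0'⟩ := hP'
    obtain ⟨hq, hi⟩ := mem_Sim.1 hS
    obtain ⟨hq', hi'⟩ := mem_Sim.1 hS'
    have e6 : P 6 = P' 6 := congrFun h 0
    have e7 : P 7 = P' 7 := congrFun h 1
    have e9 : P 9 = P' 9 := congrFun h 2
    have e2 : P 2 = P' 2 := congrFun h 3
    have e0 : P 0 = P' 0 := by rw [h0, h0']
    have e3 : P 3 = P' 3 := by
      apply mul_right_cancel₀ h6
      rw [hA, e6, hA', e7, e0]
    have z1 : P 1 = 0 := by
      have := c2 hq hi
      rw [h0, zero_mul] at this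
      exact pow_eq_zero_iff (two_ne_zero) |>.1 this.symm
    have z1' : P' 1 = 0 := by
      have := c2 hq' hi'
      rw [h0', zero_mul] at this
      exact pow_eq_zero_iff (two_ne_zero) |>.1 this.symm
    exact det6 hq hi hq' hi' h6 e0 (by rw [z1, z1']) e2 e3 e6 e7 e9
  have hB1 : ((Sim F).filter (fun P => P 6 ≠ 0 ∧ P 1 * P 6 = P 9 * P 0 ∧ P 0 ≠ 0)).card ≤
      Fintype.card F ^ 5 := by
    refine inj5 (fun P => ![P 6, P 7, P 9, P 0, P 3]) ?_
    intro P hP P' hP' h
    simp only [mem_filter] at hP hP'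
    obtain ⟨hS, h6, hA, h0⟩ := hP
    obtain ⟨hS', h6', hA', h0'⟩ := hP'
    obtain ⟨hq, hi⟩ := mem_Sim.1 hS
    obtain ⟨hq', hi'⟩ := mem_Sim.1 hS'
    have e6 : P 6 = P' 6 := congrFun h 0
    have e7 : P 7 = P' 7 := congrFun h 1
    have e9 : P 9 = P' 9 := congrFun h 2
    have e0 : P 0 = P' 0 := congrFun h 3
    have e3 : P 3 = P' 3 := congrFun h 4
    have e1 : P 1 = P' 1 := by
      apply mul_right_cancel₀ h6
      rw [hA, e6, hA', e9, e0]
    have e2 : P 2 = P' 2 := by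
      apply mul_left_cancel₀ h0
      rw [c2 hq hi, e0, c2 hq' hi', e1]
    exact det6 hq hi hq' hi' h6 e0 e1 e2 e3 e6 e7 e9
  have hB2 : ((Sim F).filter (fun P => P 6 ≠ 0 ∧ P 1 * P 6 = P 9 * P 0 ∧ P 0 = 0 ∧ P 3 ≠ 0)).card ≤
      Fintype.card F ^ 5 := by
    refine inj5 (fun P => ![P 6, P 7, P 9, P 3, P 3]) ?_
    intro P hP P' hP' h
    simp only [mem_filter] at hP hP'
    obtain ⟨hS, h6, hA, h0, h3⟩ := hP
    obtain ⟨hS', h6', hA', h0', h3'⟩ := hP'
    obtain ⟨hq, hi⟩ := mem_Sim.1 hS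
    obtain ⟨hq', hi'⟩ := mem_Sim.1 hS'
    have e6 : P 6 = P' 6 := congrFun h 0
    have e7 : P 7 = P' 7 := congrFun h 1
    have e9 : P 9 = P' 9 := congrFun h 2
    have e3 : P 3 = P' 3 := congrFun h 3
    have e0 : P 0 = P' 0 := by rw [h0, h0']
    have e1 : P 1 = P' 1 := by
      apply mul_right_cancel₀ h6
      rw [hA, e6, hA', e9, e0]
    have key : ∀ Q : Fin 12 → F, QdR Q → ImR Q → Q 6 ≠ 0 → Q 0 = 0 → Q 3 ≠ 0 → Q 2 = 0 := by
      intro Q a b c d e
      have z1 : Q 1 = 0 := by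
        have := c2 a b
        rw [d, zero_mul] at this
        exact pow_eq_zero_iff (two_ne_zero) |>.1 this.symm
      have : Q 2 * Q 3 = 0 := by
        linear_combination s23 b c - a.h5 + Q 4 * z1
      exact (mul_eq_zero.1 this).resolve_right e
    have e2 : P 2 = P' 2 := by
      rw [key P hq hi h6 h0 h3, key P' hq' hi' h6' h0' h3']
    exact det6 hq hi hq' hi' h6 e0 e1 e2 e3 e6 e7 e9
  refine (card_le_card hcov).trans ((card_union_le _ _).trans ?_)
  have h1 := card_union_le ((Sim F).filter (fun P => P 6 ≠ 0 ∧ P 3 * P 6 = P 7 * P 0 ∧ P 0 ≠ 0))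
      ((Sim F).filter (fun P => P 6 ≠ 0 ∧ P 3 * P 6 = P 7 * P 0 ∧ P 0 = 0))
  have h2 := card_union_le ((Sim F).filter (fun P => P 6 ≠ 0 ∧ P 1 * P 6 = P 9 * P 0 ∧ P 0 ≠ 0))
      ((Sim F).filter (fun P => P 6 ≠ 0 ∧ P 1 * P 6 = P 9 * P 0 ∧ P 0 = 0 ∧ P 3 ≠ 0))
  omega

open Classical in
theorem cardS {i : Fin 12} (φ : (Fin 12 → F) → (Fin 12 → F)) (hφ : Function.Injective φ)
    (hS : ∀ P ∈ Sim F, φ P ∈ Sim F) (h : ∀ P, φ P 6 = P i) :
    ((Sim F).filter (fun P => P i ≠ 0)).card ≤ 4 * Fintype.card F ^ 5 := by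
  refine le_trans ?_ (card6 (F := F))
  refine Finset.card_le_card_of_injOn φ ?_ (hφ.injOn)
  intro P hP
  simp only [coe_filter, Set.mem_setOf_eq] at hP ⊢
  exact ⟨hS P hP.1, by rw [h]; exact hP.2⟩

open Classical in
theorem card0 : ((Sim F).filter (fun P => P 6 = 0 ∧ P 8 = 0 ∧ P 9 = 0 ∧ P 11 = 0)).card ≤
    2 * Fintype.card F ^ 5 := by
  have hcov : (Sim F).filter (fun P => P 6 = 0 ∧ P 8 = 0 ∧ P 9 = 0 ∧ P 11 = 0) ⊆
      ((Sim F).filter (fun P => (P 6 = 0 ∧ P 8 = 0 ∧ P 9 = 0 ∧ P 11 = 0) ∧ P 0 ≠ 0)) ∪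
      ((Sim F).filter (fun P => (P 6 = 0 ∧ P 8 = 0 ∧ P 9 = 0 ∧ P 11 = 0) ∧ P 0 = 0)) := by
    intro P hP
    simp only [mem_filter, mem_union] at hP ⊢
    by_cases h0 : P 0 = 0
    · exact Or.inr ⟨hP.1, hP.2, h0⟩
    · exact Or.inl ⟨hP.1, hP.2, h0⟩
  have z7 : ∀ Q : Fin 12 → F, ImR Q → Q 6 = 0 → Q 7 = 0 := by
    intro Q b c
    have := b.i1
    rw [c, zero_mul] at this
    exact pow_eq_zero_iff (two_ne_zero) |>.1 this.symm
  have z10 : ∀ Q : Fin 12 → F, ImR Q → Q 9 = 0 → Q 10 = 0 := by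
    intro Q b c
    have := b.i3
    rw [c, zero_mul] at this
    exact pow_eq_zero_iff (two_ne_zero) |>.1 this.symm
  have h1 : ((Sim F).filter
      (fun P => (P 6 = 0 ∧ P 8 = 0 ∧ P 9 = 0 ∧ P 11 = 0) ∧ P 0 ≠ 0)).card ≤
      Fintype.card F ^ 5 := by
    refine inj5 (fun P => ![P 0, P 1, P 3, P 4, P 5]) ?_
    intro P hP P' hP' h
    simp only [mem_filter] at hP hP'
    obtain ⟨hS, ⟨a6, a8, a9, a11⟩, h0⟩ := hP
    obtain ⟨hS', ⟨b6, b8, b9, b11⟩, h0'⟩ := hP'
    obtain ⟨hq, hi⟩ := mem_Sim.1 hS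
    obtain ⟨hq', hi'⟩ := mem_Sim.1 hS'
    have e0 : P 0 = P' 0 := congrFun h 0
    have e1 : P 1 = P' 1 := congrFun h 1
    have e3 : P 3 = P' 3 := congrFun h 2
    have e4 : P 4 = P' 4 := congrFun h 3
    have e5 : P 5 = P' 5 := congrFun h 4
    have e2 : P 2 = P' 2 := by
      apply mul_left_cancel₀ h0
      rw [c2 hq hi, e0, c2 hq' hi', e1]
    have e6 : P 6 = P' 6 := by rw [a6, b6]
    have e7 : P 7 = P' 7 := by rw [z7 P hi a6, z7 P' hi' b6]
    have e8 : P 8 = P' 8 := by rw [a8, b8]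
    have e9 : P 9 = P' 9 := by rw [a9, b9]
    have e10 : P 10 = P' 10 := by rw [z10 P hi a9, z10 P' hi' b9]
    have e11 : P 11 = P' 11 := by rw [a11, b11]
    funext j
    fin_cases j <;> assumption
  have h2 : ((Sim F).filter
      (fun P => (P 6 = 0 ∧ P 8 = 0 ∧ P 9 = 0 ∧ P 11 = 0) ∧ P 0 = 0)).card ≤
      Fintype.card F ^ 5 := by
    refine inj5 (fun P => ![P 2, P 3, P 4, P 5, P 5]) ?_
    intro P hP P' hP' h
    simp only [mem_filter] at hP hP'
    obtain ⟨hS, ⟨a6, a8, a9, a11⟩, h0⟩ := hP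
    obtain ⟨hS', ⟨b6, b8, b9, b11⟩, h0'⟩ := hP'
    obtain ⟨hq, hi⟩ := mem_Sim.1 hS
    obtain ⟨hq', hi'⟩ := mem_Sim.1 hS'
    have e2 : P 2 = P' 2 := congrFun h 0
    have e3 : P 3 = P' 3 := congrFun h 1
    have e4 : P 4 = P' 4 := congrFun h 2
    have e5 : P 5 = P' 5 := congrFun h 3
    have e0 : P 0 = P' 0 := by rw [h0, h0']
    have z1 : ∀ Q : Fin 12 → F, QdR Q → ImR Q → Q 0 = 0 → Q 1 = 0 := by
      intro Q a b c
      have := c2 a b
      rw [c, zero_mul] at this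
      exact pow_eq_zero_iff (two_ne_zero) |>.1 this.symm
    have e1 : P 1 = P' 1 := by rw [z1 P hq hi h0, z1 P' hq' hi' h0']
    have e6 : P 6 = P' 6 := by rw [a6, b6]
    have e7 : P 7 = P' 7 := by rw [z7 P hi a6, z7 P' hi' b6]
    have e8 : P 8 = P' 8 := by rw [a8, b8]
    have e9 : P 9 = P' 9 := by rw [a9, b9]
    have e10 : P 10 = P' 10 := by rw [z10 P hi a9, z10 P' hi' b9]
    have e11 : P 11 = P' 11 := by rw [a11, b11]
    funext j
    fin_cases j <;> assumption
  refine (card_le_card hcov).trans ((card_union_le _ _).trans ?_)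
  omega

open Classical in
/-- the number of improper points over a finite field -/
theorem sim_card : (Sim F).card ≤ 18 * Fintype.card F ^ 5 := by
  have hcov : Sim F ⊆ ((((Sim F).filter (fun P => P 6 ≠ 0)) ∪ ((Sim F).filter (fun P => P 8 ≠ 0))) ∪
      (((Sim F).filter (fun P => P 9 ≠ 0)) ∪ ((Sim F).filter (fun P => P 11 ≠ 0)))) ∪
      ((Sim F).filter (fun P => P 6 = 0 ∧ P 8 = 0 ∧ P 9 = 0 ∧ P 11 = 0)) := by
    intro P hP
    simp only [mem_filter, mem_union]
    by_cases h6 : P 6 = 0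
    · by_cases h8 : P 8 = 0
      · by_cases h9 : P 9 = 0
        · by_cases h11 : P 11 = 0
          · exact Or.inr ⟨hP, h6, h8, h9, h11⟩
          · exact Or.inl (Or.inr (Or.inr ⟨hP, h11⟩))
        · exact Or.inl (Or.inr (Or.inl ⟨hP, h9⟩))
      · exact Or.inl (Or.inl (Or.inr ⟨hP, h8⟩))
    · exact Or.inl (Or.inl (Or.inl ⟨hP, h6⟩))
  have mW : ∀ P ∈ Sim F, pW P ∈ Sim F := fun P hP =>
    mem_Sim.2 ⟨qW (mem_Sim.1 hP).1, iW (mem_Sim.1 hP).2⟩
  have mV : ∀ P ∈ Sim F, pV P ∈ Sim F := fun P hP =>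
    mem_Sim.2 ⟨qV (mem_Sim.1 hP).1, iV (mem_Sim.1 hP).2⟩
  have c6 := card6 (F := F)
  have c8 := cardS (F := F) (i := 8) pW injW mW (fun P => by simp [pW])
  have c9 := cardS (F := F) (i := 9) pV injV mV (fun P => by simp [pV])
  have c11 := cardS (F := F) (i := 11) (fun P => pW (pV P)) (injW.comp injV)
    (fun P hP => mW _ (mV P hP)) (fun P => by simp [pV, pW])
  have c0 := card0 (F := F)
  refine (card_le_card hcov).trans ((card_union_le _ _).trans ?_)
  have u1 := card_union_le (((Sim F).filter (fun P => P 6 ≠ 0)) ∪ ((Sim F).filter (fun P => P 8 ≠ 0)))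
      (((Sim F).filter (fun P => P 9 ≠ 0)) ∪ ((Sim F).filter (fun P => P 11 ≠ 0)))
  have u2 := card_union_le ((Sim F).filter (fun P => P 6 ≠ 0)) ((Sim F).filter (fun P => P 8 ≠ 0))
  have u3 := card_union_le ((Sim F).filter (fun P => P 9 ≠ 0)) ((Sim F).filter (fun P => P 11 ≠ 0))
  omega

open Classical in
/-- the nonzero improper points killed by `x`, summed over a family `X` whose classes have at most
`B` elements -/
theorem nim_sum {ι : Type*} (X : Finset ι) (r : ι → (Fin 10 → F)) (B : ℕ)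
    (hB : ∀ y : Fin 10 → F, (X.filter (fun i => r i = y)).card ≤ B) :
    ∑ i ∈ X, ((Sim F).filter (fun P => P ≠ 0 ∧ InR P (r i))).card ≤
      18 * B * Fintype.card F ^ 10 := by
  have h1 : ∀ i ∈ X, ((Sim F).filter (fun P => P ≠ 0 ∧ InR P (r i))).card =
      ∑ P ∈ (Sim F).filter (fun P => P ≠ 0), if InR P (r i) then 1 else 0 := by
    intro i _
    rw [← Finset.sum_filter, Finset.sum_const, smul_eq_mul, mul_one, Finset.filter_filter]
  rw [Finset.sum_congr rfl h1, Finset.sum_comm]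
  have h2 : ∀ P ∈ (Sim F).filter (fun P => P ≠ 0), (∑ i ∈ X, if InR P (r i) then 1 else 0) ≤
      B * Fintype.card F ^ 5 := by
    intro P hP
    rw [← Finset.sum_filter, Finset.sum_const, smul_eq_mul, mul_one]
    have : (X.filter (fun i => InR P (r i))).card ≤
        ∑ y ∈ (univ : Finset (Fin 10 → F)).filter (InR P), (X.filter (fun i => r i = y)).card := by
      rw [← Finset.card_eq_sum_card_fiberwise (f := r) (s := X.filter (fun i => InR P (r i)))
        (t := (univ : Finset (Fin 10 → F)).filter (InR P)) ?_ |>.symm] 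
      · apply Finset.sum_le_sum
        intro y _
        apply Finset.card_le_card
        intro i hi
        simp only [mem_filter] at hi ⊢
        exact ⟨hi.1.1, hi.2⟩
      · intro i hi
        simp only [coe_filter, Set.mem_setOf_eq, mem_univ, true_and] at hi ⊢
        exact hi.2
    refine this.trans ((Finset.sum_le_sum fun y _ => hB y).trans ?_)
    rw [Finset.sum_const, smul_eq_mul, mul_comm]
    exact Nat.mul_le_mul_left _ (inR_card (mem_filter.1 hP).2)
  refine (Finset.sum_le_sum h2).trans ?_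
  rw [Finset.sum_const, smul_eq_mul]
  have h3 : ((Sim F).filter (fun P => P ≠ 0)).card ≤ 18 * Fintype.card F ^ 5 :=
    (card_le_card (filter_subset _ _)).trans sim_card
  calc ((Sim F).filter (fun P => P ≠ 0)).card * (B * Fintype.card F ^ 5)
      ≤ (18 * Fintype.card F ^ 5) * (B * Fintype.card F ^ 5) := Nat.mul_le_mul_right _ h3
    _ = 18 * B * Fintype.card F ^ 10 := by ring

end Pool.Agent.PP5LN
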