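import Pool.Agent.PP5LN.Defs

/-!
# LB5: `#{x mod p : P ∈ K_x} ≤ p ^ 5` for `P ≠ 0` (in any finite field)
-/

set_option autoImplicit false

namespace Pool.Agent.PP5LN

open Finset

theorem InR.sub {R : Type*} [CommRing R] {P : Fin 12 → R} {x y : Fin 10 → R} (hx : InR P x)
    (hy : InR P y) : InR P (fun j => x j - y j) where
  e1 := by linear_combination hx.e1 - hy.e1
  e2 := by linear_combination hx.e2 - hy.e2
  e3 := by linear_combination hx.e3 - hy.e3
  e4 := by linear_combination hx.e4 - hy.e4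
  e5 := by linear_combination hx.e5 - hy.e5
  e6 := by linear_combination hx.e6 - hy.e6
  e7 := by linear_combination hx.e7 - hy.e7
  e8 := by linear_combination hx.e8 - hy.e8
  e9 := by linear_combination hx.e9 - hy.e9
  e10 := by linear_combination hx.e10 - hy.e10
  e11 := by linear_combination hx.e11 - hy.e11
  e12 := by linear_combination hx.e12 - hy.e12
  e13 := by linear_combination hx.e13 - hy.e13
  e14 := by linear_combination hx.e14 - hy.e14
  e15 := by linear_combination hx.e15 - hy.e15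
  e16 := by linear_combination hx.e16 - hy.e16

variable {F : Type*} [Field F]

/-- the free coordinates of `x` if `P k ≠ 0` -/
def fr : Fin 12 → Fin 5 → Fin 10 := ![
  ![0, 1, 5, 6, 8],
  ![0, 1, 5, 7, 9],
  ![1, 2, 4, 7, 9],
  ![0, 3, 4, 6, 8],
  ![2, 3, 5, 6, 8],
  ![2, 3, 5, 7, 9],
  ![0, 1, 4, 6, 7],
  ![0, 3, 5, 6, 7],
  ![0, 3, 5, 8, 9],
  ![1, 2, 5, 6, 7],
  ![1, 2, 5, 8, 9],
  ![2, 3, 4, 8, 9]]

private theorem z0 {P : Fin 12 → F} {y : Fin 10 → F} (h : InR P y) (hk : P 0 ≠ 0)
    (hf : ∀ i, y (fr 0 i) = 0) : ∀ j, y j = 0 := by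
  have f0 : y 0 = 0 := hf 0
  have f1 : y 1 = 0 := hf 1
  have f5 : y 5 = 0 := hf 2
  have f6 : y 6 = 0 := hf 3
  have f8 : y 8 = 0 := hf 4
  have f7 : y 7 = 0 := by
    have := h.e2
    simpa [f0, f1, f5, f6, f8, hk] using this
  have f3 : y 3 = 0 := by
    have := h.e3
    simpa [f0, f1, f5, f6, f8, hk] using this
  have f9 : y 9 = 0 := by
    have := h.e6
    simpa [f0, f1, f5, f6, f8, hk] using this
  have f2 : y 2 = 0 := by
    have := h.e8
    simpa [f0, f1, f5, f6, f8, hk] using this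
  have f4 : y 4 = 0 := by
    have := h.e10
    simpa [f0, f1, f5, f6, f8, hk] using this
  intro j; fin_cases j <;> assumption

private theorem z1 {P : Fin 12 → F} {y : Fin 10 → F} (h : InR P y) (hk : P 1 ≠ 0)
    (hf : ∀ i, y (fr 1 i) = 0) : ∀ j, y j = 0 := by
  have f0 : y 0 = 0 := hf 0
  have f1 : y 1 = 0 := hf 1
  have f5 : y 5 = 0 := hf 2
  have f7 : y 7 = 0 := hf 3
  have f9 : y 9 = 0 := hf 4
  have f6 : y 6 = 0 := by
    have := h.e2
    simpa [f0, f1, f5, f7, f9, hk] using this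
  have f2 : y 2 = 0 := by
    have := h.e4
    simpa [f0, f1, f5, f7, f9, hk] using this
  have f8 : y 8 = 0 := by
    have := h.e6
    simpa [f0, f1, f5, f7, f9, hk] using this
  have f3 : y 3 = 0 := by
    have := h.e7
    simpa [f0, f1, f5, f7, f9, hk] using this
  have f4 : y 4 = 0 := by
    have := h.e16
    simpa [f0, f1, f5, f7, f9, hk] using this
  intro j; fin_cases j <;> assumption

private theorem z2 {P : Fin 12 → F} {y : Fin 10 → F} (h : InR P y) (hk : P 2 ≠ 0)
    (hf : ∀ i, y (fr 2 i) = 0) : ∀ j, y j = 0 := by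
  have f1 : y 1 = 0 := hf 0
  have f2 : y 2 = 0 := hf 1
  have f4 : y 4 = 0 := hf 2
  have f7 : y 7 = 0 := hf 3
  have f9 : y 9 = 0 := hf 4
  have f5 : y 5 = 0 := by
    have := h.e4
    simpa [f1, f2, f4, f7, f9, hk] using this
  have f3 : y 3 = 0 := by
    have := h.e9
    simpa [f1, f2, f4, f7, f9, hk] using this
  have f6 : y 6 = 0 := by
    have := h.e11
    simpa [f1, f2, f4, f7, f9, hk] using this
  have f8 : y 8 = 0 := by
    have := h.e13
    simpa [f1, f2, f4, f7, f9, hk] using this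
  have f0 : y 0 = 0 := by
    have := h.e16
    simpa [f1, f2, f4, f7, f9, hk] using this
  intro j; fin_cases j <;> assumption

private theorem z3 {P : Fin 12 → F} {y : Fin 10 → F} (h : InR P y) (hk : P 3 ≠ 0)
    (hf : ∀ i, y (fr 3 i) = 0) : ∀ j, y j = 0 := by
  have f0 : y 0 = 0 := hf 0
  have f3 : y 3 = 0 := hf 1
  have f4 : y 4 = 0 := hf 2
  have f6 : y 6 = 0 := hf 3
  have f8 : y 8 = 0 := hf 4
  have f5 : y 5 = 0 := by
    have := h.e3
    simpa [f0, f3, f4, f6, f8, hk] using this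
  have f1 : y 1 = 0 := by
    have := h.e10
    simpa [f0, f3, f4, f6, f8, hk] using this
  have f9 : y 9 = 0 := by
    have := h.e12
    simpa [f0, f3, f4, f6, f8, hk] using this
  have f7 : y 7 = 0 := by
    have := h.e14
    simpa [f0, f3, f4, f6, f8, hk] using this
  have f2 : y 2 = 0 := by
    have := h.e15
    simpa [f0, f3, f4, f6, f8, hk] using this
  intro j; fin_cases j <;> assumption

private theorem z4 {P : Fin 12 → F} {y : Fin 10 → F} (h : InR P y) (hk : P 4 ≠ 0)
    (hf : ∀ i, y (fr 4 i) = 0) : ∀ j, y j = 0 := by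
  have f2 : y 2 = 0 := hf 0
  have f3 : y 3 = 0 := hf 1
  have f5 : y 5 = 0 := hf 2
  have f6 : y 6 = 0 := hf 3
  have f8 : y 8 = 0 := hf 4
  have f9 : y 9 = 0 := by
    have := h.e1
    simpa [f2, f3, f5, f6, f8, hk] using this
  have f0 : y 0 = 0 := by
    have := h.e3
    simpa [f2, f3, f5, f6, f8, hk] using this
  have f7 : y 7 = 0 := by
    have := h.e5
    simpa [f2, f3, f5, f6, f8, hk] using this
  have f1 : y 1 = 0 := by
    have := h.e8
    simpa [f2, f3, f5, f6, f8, hk] using this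
  have f4 : y 4 = 0 := by
    have := h.e15
    simpa [f2, f3, f5, f6, f8, hk] using this
  intro j; fin_cases j <;> assumption

private theorem z5 {P : Fin 12 → F} {y : Fin 10 → F} (h : InR P y) (hk : P 5 ≠ 0)
    (hf : ∀ i, y (fr 5 i) = 0) : ∀ j, y j = 0 := by
  have f2 : y 2 = 0 := hf 0
  have f3 : y 3 = 0 := hf 1
  have f5 : y 5 = 0 := hf 2
  have f7 : y 7 = 0 := hf 3
  have f9 : y 9 = 0 := hf 4
  have f8 : y 8 = 0 := by
    have := h.e1
    simpa [f2, f3, f5, f7, f9, hk] using this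
  have f1 : y 1 = 0 := by
    have := h.e4
    simpa [f2, f3, f5, f7, f9, hk] using this
  have f6 : y 6 = 0 := by
    have := h.e5
    simpa [f2, f3, f5, f7, f9, hk] using this
  have f0 : y 0 = 0 := by
    have := h.e7
    simpa [f2, f3, f5, f7, f9, hk] using this
  have f4 : y 4 = 0 := by
    have := h.e9
    simpa [f2, f3, f5, f7, f9, hk] using this
  intro j; fin_cases j <;> assumption

private theorem z6 {P : Fin 12 → F} {y : Fin 10 → F} (h : InR P y) (hk : P 6 ≠ 0)
    (hf : ∀ i, y (fr 6 i) = 0) : ∀ j, y j = 0 := by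
  have f0 : y 0 = 0 := hf 0
  have f1 : y 1 = 0 := hf 1
  have f4 : y 4 = 0 := hf 2
  have f6 : y 6 = 0 := hf 3
  have f7 : y 7 = 0 := hf 4
  have f5 : y 5 = 0 := by
    have := h.e2
    simpa [f0, f1, f4, f6, f7, hk] using this
  have f8 : y 8 = 0 := by
    have := h.e10
    simpa [f0, f1, f4, f6, f7, hk] using this
  have f2 : y 2 = 0 := by
    have := h.e11
    simpa [f0, f1, f4, f6, f7, hk] using this
  have f3 : y 3 = 0 := by
    have := h.e14
    simpa [f0, f1, f4, f6, f7, hk] using this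
  have f9 : y 9 = 0 := by
    have := h.e16
    simpa [f0, f1, f4, f6, f7, hk] using this
  intro j; fin_cases j <;> assumption

private theorem z7 {P : Fin 12 → F} {y : Fin 10 → F} (h : InR P y) (hk : P 7 ≠ 0)
    (hf : ∀ i, y (fr 7 i) = 0) : ∀ j, y j = 0 := by
  have f0 : y 0 = 0 := hf 0
  have f3 : y 3 = 0 := hf 1
  have f5 : y 5 = 0 := hf 2
  have f6 : y 6 = 0 := hf 3
  have f7 : y 7 = 0 := hf 4
  have f1 : y 1 = 0 := by
    have := h.e2
    simpa [f0, f3, f5, f6, f7, hk] using this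
  have f8 : y 8 = 0 := by
    have := h.e3
    simpa [f0, f3, f5, f6, f7, hk] using this
  have f2 : y 2 = 0 := by
    have := h.e5
    simpa [f0, f3, f5, f6, f7, hk] using this
  have f9 : y 9 = 0 := by
    have := h.e7
    simpa [f0, f3, f5, f6, f7, hk] using this
  have f4 : y 4 = 0 := by
    have := h.e14
    simpa [f0, f3, f5, f6, f7, hk] using this
  intro j; fin_cases j <;> assumption

private theorem z8 {P : Fin 12 → F} {y : Fin 10 → F} (h : InR P y) (hk : P 8 ≠ 0)
    (hf : ∀ i, y (fr 8 i) = 0) : ∀ j, y j = 0 := by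
  have f0 : y 0 = 0 := hf 0
  have f3 : y 3 = 0 := hf 1
  have f5 : y 5 = 0 := hf 2
  have f8 : y 8 = 0 := hf 3
  have f9 : y 9 = 0 := hf 4
  have f2 : y 2 = 0 := by
    have := h.e1
    simpa [f0, f3, f5, f8, f9, hk] using this
  have f6 : y 6 = 0 := by
    have := h.e3
    simpa [f0, f3, f5, f8, f9, hk] using this
  have f1 : y 1 = 0 := by
    have := h.e6
    simpa [f0, f3, f5, f8, f9, hk] using this
  have f7 : y 7 = 0 := by
    have := h.e7
    simpa [f0, f3, f5, f8, f9, hk] using this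
  have f4 : y 4 = 0 := by
    have := h.e12
    simpa [f0, f3, f5, f8, f9, hk] using this
  intro j; fin_cases j <;> assumption

private theorem z9 {P : Fin 12 → F} {y : Fin 10 → F} (h : InR P y) (hk : P 9 ≠ 0)
    (hf : ∀ i, y (fr 9 i) = 0) : ∀ j, y j = 0 := by
  have f1 : y 1 = 0 := hf 0
  have f2 : y 2 = 0 := hf 1
  have f5 : y 5 = 0 := hf 2
  have f6 : y 6 = 0 := hf 3
  have f7 : y 7 = 0 := hf 4
  have f0 : y 0 = 0 := by
    have := h.e2
    simpa [f1, f2, f5, f6, f7, hk] using this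
  have f9 : y 9 = 0 := by
    have := h.e4
    simpa [f1, f2, f5, f6, f7, hk] using this
  have f3 : y 3 = 0 := by
    have := h.e5
    simpa [f1, f2, f5, f6, f7, hk] using this
  have f8 : y 8 = 0 := by
    have := h.e8
    simpa [f1, f2, f5, f6, f7, hk] using this
  have f4 : y 4 = 0 := by
    have := h.e11
    simpa [f1, f2, f5, f6, f7, hk] using this
  intro j; fin_cases j <;> assumption

private theorem z10 {P : Fin 12 → F} {y : Fin 10 → F} (h : InR P y) (hk : P 10 ≠ 0)
    (hf : ∀ i, y (fr 10 i) = 0) : ∀ j, y j = 0 := by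
  have f1 : y 1 = 0 := hf 0
  have f2 : y 2 = 0 := hf 1
  have f5 : y 5 = 0 := hf 2
  have f8 : y 8 = 0 := hf 3
  have f9 : y 9 = 0 := hf 4
  have f3 : y 3 = 0 := by
    have := h.e1
    simpa [f1, f2, f5, f8, f9, hk] using this
  have f7 : y 7 = 0 := by
    have := h.e4
    simpa [f1, f2, f5, f8, f9, hk] using this
  have f0 : y 0 = 0 := by
    have := h.e6
    simpa [f1, f2, f5, f8, f9, hk] using this
  have f6 : y 6 = 0 := by
    have := h.e8
    simpa [f1, f2, f5, f8, f9, hk] using this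
  have f4 : y 4 = 0 := by
    have := h.e13
    simpa [f1, f2, f5, f8, f9, hk] using this
  intro j; fin_cases j <;> assumption

private theorem z11 {P : Fin 12 → F} {y : Fin 10 → F} (h : InR P y) (hk : P 11 ≠ 0)
    (hf : ∀ i, y (fr 11 i) = 0) : ∀ j, y j = 0 := by
  have f2 : y 2 = 0 := hf 0
  have f3 : y 3 = 0 := hf 1
  have f4 : y 4 = 0 := hf 2
  have f8 : y 8 = 0 := hf 3
  have f9 : y 9 = 0 := hf 4
  have f5 : y 5 = 0 := by
    have := h.e1
    simpa [f2, f3, f4, f8, f9, hk] using this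
  have f7 : y 7 = 0 := by
    have := h.e9
    simpa [f2, f3, f4, f8, f9, hk] using this
  have f0 : y 0 = 0 := by
    have := h.e12
    simpa [f2, f3, f4, f8, f9, hk] using this
  have f1 : y 1 = 0 := by
    have := h.e13
    simpa [f2, f3, f4, f8, f9, hk] using this
  have f6 : y 6 = 0 := by
    have := h.e15
    simpa [f2, f3, f4, f8, f9, hk] using this
  intro j; fin_cases j <;> assumption

theorem inR_zero {P : Fin 12 → F} {y : Fin 10 → F} (h : InR P y) {k : Fin 12} (hk : P k ≠ 0)
    (hf : ∀ i, y (fr k i) = 0) : ∀ j, y j = 0 := by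
  fin_cases k
  · exact z0 h hk hf
  · exact z1 h hk hf
  · exact z2 h hk hf
  · exact z3 h hk hf
  · exact z4 h hk hf
  · exact z5 h hk hf
  · exact z6 h hk hf
  · exact z7 h hk hf
  · exact z8 h hk hf
  · exact z9 h hk hf
  · exact z10 h hk hf
  · exact z11 h hk hf

variable [Fintype F] [DecidableEq F]

open Classical in
/-- `E_P` has at most `q ^ 5` elements -/
theorem inR_card {P : Fin 12 → F} (hP : P ≠ 0) :
    ((univ : Finset (Fin 10 → F)).filter (InR P)).card ≤ Fintype.card F ^ 5 := by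
  obtain ⟨k, hk⟩ := Function.ne_iff.1 hP
  have hk' : P k ≠ 0 := by simpa using hk
  calc ((univ : Finset (Fin 10 → F)).filter (InR P)).card
      ≤ (univ : Finset (Fin 5 → F)).card := by
        refine Finset.card_le_card_of_injOn (fun x i => x (fr k i)) (fun _ _ => mem_univ _) ?_
        intro x hx y hy hxy
        simp only [coe_filter, mem_univ, true_and] at hx hy
        have hz := inR_zero (InR.sub hx hy) hk' (fun i => by
          have := congrFun hxy i
          simp only at this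
          simp [this])
        funext j
        exact sub_eq_zero.1 (hz j)
    _ = Fintype.card F ^ 5 := by simp

end Pool.Agent.PP5LN
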